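import Mathlib
import Pool.Agent.W126.View

set_option autoImplicit false

/-! From what a prime sees to consecutive prime gaps. -/

namespace Pool.Agent.N790.LC

open Finset Pool.Agent.W126.View

theorem nth_step {a b s : ℕ} (ha : Nat.nth Nat.Prime s = a) (hb : b.Prime) (hab : a < b)
    (hno : ∀ c, a < c → c < b → ¬ c.Prime) : Nat.nth Nat.Prime (s + 1) = b := by
  have h1 : Nat.nth Nat.Prime (Nat.count Nat.Prime b) = b := Nat.nth_count hb
  have hmono := Nat.nth_strictMono Nat.infinite_setOfPred_prime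
  have h2 : s < Nat.count Nat.Prime b := by
    rw [← hmono.lt_iff_lt, h1, ha]
    exact hab
  rcases Nat.lt_or_ge (s + 1) (Nat.count Nat.Prime b) with h3 | h3
  · exfalso
    have h4 : Nat.nth Nat.Prime (s + 1) < b := by
      rw [← h1]
      exact hmono h3
    have h5 : a < Nat.nth Nat.Prime (s + 1) := by
      rw [← ha]
      exact hmono (Nat.lt_succ_self s)
    exact hno _ h5 h4 (Nat.prime_nth_prime _)
  · have h4 : Nat.count Nat.Prime b = s + 1 := by omega
    rw [← h4, h1]

open Classical in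
theorem clusters {k q a : ℕ} {r e : ℝ} {T : Fin (k + 1) → ℝ} {p : ℕ} (he : 0 ≤ e)
    (hs : Sees q a r e T p) (hsep : ∀ b : Fin k, 2 * e < T b.succ - T b.castSucc)
    (hr : ∀ b, |T b| + e ≤ r) :
    ∃ (n : ℕ) (j : Fin k → ℕ), StrictMono j ∧ (∀ i : Fin k, (i : ℕ) = 0 → j i = 0) ∧
      (∀ i, |((Nat.nth Nat.Prime (n + j i + 1) : ℝ) - Nat.nth Nat.Prime (n + j i)) -
        (T i.succ - T i.castSucc)| ≤ 2 * e) ∧
      (∀ l, (∃ i, l < j i) → (∀ i, l ≠ j i) →
        (Nat.nth Nat.Prime (n + l + 1) : ℝ) - Nat.nth Nat.Prime (n + l) ≤ 2 * e) ∧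
      (∀ l, (∃ i, l ≤ j i + 1) → Nat.nth Nat.Prime (n + l) ≡ a [MOD q] ∧
        |(Nat.nth Nat.Prime (n + l) : ℝ) - p| ≤ r) := by
  have hnmono := Nat.nth_strictMono Nat.infinite_setOfPred_prime
  set C : Fin (k + 1) → Finset ℕ := fun b =>
    (range (⌊(p : ℝ) + r⌋₊ + 1)).filter (fun p' => p'.Prime ∧ |(p' : ℝ) - p - T b| ≤ e) with hC
  have hmem : ∀ (b : Fin (k + 1)) (x : ℕ), x ∈ C b ↔ x.Prime ∧ |(x : ℝ) - p - T b| ≤ e := by
    intro b x
    simp only [hC, mem_filter, mem_range]
    refine ⟨fun h => h.2, fun h => ⟨?_, h⟩⟩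
    rw [Nat.lt_succ_iff]
    apply Nat.le_floor
    have h1 := (abs_le.1 h.2).2
    have h2 := hr b
    have h3 := le_abs_self (T b)
    linarith
  have hne : ∀ b, (C b).Nonempty := by
    intro b
    obtain ⟨x, hx, _, hx2⟩ := hs.2 b
    exact ⟨x, (hmem b x).2 ⟨hx, hx2⟩⟩
  set M : Fin (k + 1) → ℕ := fun b => (C b).max' (hne b) with hM
  set m : Fin (k + 1) → ℕ := fun b => (C b).min' (hne b) with hm
  have hMC : ∀ b, M b ∈ C b := fun b => max'_mem _ _
  have hmC : ∀ b, m b ∈ C b := fun b => min'_mem _ _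
  have hMle : ∀ b x, x ∈ C b → x ≤ M b := fun b x hx => le_max' _ _ hx
  have hmle : ∀ b x, x ∈ C b → m b ≤ x := fun b x hx => min'_le _ _ hx
  have hMp : ∀ b, (M b).Prime := fun b => ((hmem _ _).1 (hMC b)).1
  have hmp : ∀ b, (m b).Prime := fun b => ((hmem _ _).1 (hmC b)).1
  have hTmono : StrictMono T := by
    rw [Fin.strictMono_iff_lt_succ]
    intro i
    have := hsep i
    linarith
  have hTsep : ∀ b b' : Fin (k + 1), b < b' → T b + 2 * e < T b' := by
    intro b b' hbb
    have hbl : (b : ℕ) < k := by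
      have h1 : (b : ℕ) < b' := hbb
      have h2 := b'.2
      omega
    have h1 := hsep ⟨b, hbl⟩
    have h2 : (⟨(b : ℕ), hbl⟩ : Fin k).castSucc = b := by ext; rfl
    have h3 : (⟨(b : ℕ), hbl⟩ : Fin k).succ ≤ b' := by
      rw [Fin.le_def]
      simp only [Fin.val_succ]
      exact hbb
    have h4 := hTmono.monotone h3
    rw [h2] at h1
    linarith
  have hlt : ∀ b b' : Fin (k + 1), b < b' → ∀ x ∈ C b, ∀ y ∈ C b', x < y := by
    intro b b' hbb x hx y hy
    have h1 := (abs_le.1 ((hmem _ _).1 hx).2).2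
    have h2 := (abs_le.1 ((hmem _ _).1 hy).2).1
    have h3 := hTsep b b' hbb
    have h4 : (x : ℝ) < y := by linarith
    exact_mod_cast h4
  have hMlt : ∀ b b' : Fin (k + 1), b < b' → M b < M b' := fun b b' h =>
    hlt b b' h _ (hMC b) _ (hMC b')
  have hMmono : ∀ b b' : Fin (k + 1), b ≤ b' → M b ≤ M b' := by
    intro b b' h
    rcases h.eq_or_lt with h1 | h1
    · rw [h1]
    · exact (hMlt b b' h1).le
  -- all the primes of the window
  have hwin : ∀ x : ℕ, x.Prime → (M 0 ≤ x) → (∃ b, ∃ y ∈ C b, x ≤ y) →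
      |(x : ℝ) - p| ≤ r ∧ x ≡ a [MOD q] ∧ ∃ b, x ∈ C b := by
    rintro x hx hx0 ⟨b, y, hy, hxy⟩
    have h1 := (abs_le.1 ((hmem _ _).1 (hMC 0)).2).1
    have h2 := (abs_le.1 ((hmem _ _).1 hy).2).2
    have h3 : (M 0 : ℝ) ≤ x := by exact_mod_cast hx0
    have h4 : (x : ℝ) ≤ y := by exact_mod_cast hxy
    have h5 := hr 0
    have h6 := hr b
    have h7 := neg_abs_le (T 0)
    have h8 := le_abs_self (T b)
    have h9 : |(x : ℝ) - p| ≤ r := by
      rw [abs_le]
      constructor <;> linarith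
    obtain ⟨h10, b', h11⟩ := hs.1 x hx h9
    exact ⟨h9, h10, b', (hmem _ _).2 ⟨hx, h11⟩⟩
  set idx : Fin (k + 1) → ℕ := fun b => Nat.count Nat.Prime (M b) with hidx
  have hPidx : ∀ b, Nat.nth Nat.Prime (idx b) = M b := fun b => Nat.nth_count (hMp b)
  have hidxlt : ∀ b b' : Fin (k + 1), b < b' → idx b < idx b' := by
    intro b b' h
    rw [← hnmono.lt_iff_lt, hPidx, hPidx]
    exact hMlt b b' h
  have hidx0 : ∀ b, idx 0 ≤ idx b := by
    intro b
    rw [← hnmono.le_iff_le, hPidx, hPidx]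
    exact hMmono _ _ (Fin.zero_le b)
  have hnj : ∀ b, idx 0 + (idx b - idx 0) = idx b := fun b => by
    have := hidx0 b
    omega
  -- the next prime
  have hnext : ∀ i : Fin k, Nat.nth Nat.Prime (idx i.castSucc + 1) = m i.succ := by
    intro i
    apply nth_step (hPidx i.castSucc) (hmp i.succ)
      (hlt _ _ Fin.castSucc_lt_succ _ (hMC _) _ (hmC _))
    intro c hc1 hc2 hcp
    obtain ⟨_, _, b, hb⟩ := hwin c hcp ((hMmono 0 _ (Fin.zero_le _)).trans hc1.le)
      ⟨i.succ, m i.succ, hmC _, hc2.le⟩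
    rcases lt_or_ge b i.succ with h1 | h1
    · have h2 : b ≤ i.castSucc := Fin.le_castSucc_iff.2 h1
      have h3 := (hMle b c hb).trans (hMmono _ _ h2)
      omega
    · rcases h1.eq_or_lt with h2 | h2
      · rw [← h2] at hb
        have := hmle _ _ hb
        omega
      · have := hlt _ _ h2 _ (hmC _) _ hb
        omega
  refine ⟨idx 0, fun i => idx i.castSucc - idx 0, ?_, ?_, ?_, ?_, ?_⟩
  · intro i i' hii
    have h1 := hidxlt i.castSucc i'.castSucc (by simpa using hii)
    have h2 := hidx0 i.castSucc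
    simp only
    omega
  · intro i hi
    have h1 : i.castSucc = 0 := by
      ext
      simpa using hi
    simp only [h1]
    omega
  · intro i
    simp only
    rw [hnj, hnext, hPidx]
    have h1 := abs_le.1 ((hmem _ _).1 (hMC i.castSucc)).2
    have h2 := abs_le.1 ((hmem _ _).1 (hmC i.succ)).2
    rw [abs_le]
    constructor <;> linarith [h1.1, h1.2, h2.1, h2.2]
  · rintro l ⟨i, hi⟩ hl
    simp only at hi hl
    set x := Nat.nth Nat.Prime (idx 0 + l) with hx
    have hxp : x.Prime := Nat.prime_nth_prime _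
    have hx1 : M 0 ≤ x := by
      rw [← hPidx 0, hx]
      exact hnmono.monotone (by omega)
    have hx2 : x < M i.castSucc := by
      rw [← hPidx, hx]
      apply hnmono
      omega
    obtain ⟨_, _, b, hb⟩ := hwin x hxp hx1 ⟨_, _, hMC i.castSucc, hx2.le⟩
    have hxb := hMle b x hb
    have hxne : x ≠ M b := by
      intro h
      rw [← hPidx, hx] at h
      have h1 := hnmono.injective h
      rcases lt_or_ge b (Fin.last k) with h2 | h2
      · have h3 : (b : ℕ) < k := h2
        apply hl ⟨b, h3⟩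
        have h4 : (⟨(b : ℕ), h3⟩ : Fin k).castSucc = b := by ext; rfl
        rw [h4]
        omega
      · have h3 : b = Fin.last k := le_antisymm (Fin.le_last b) h2
        have h4 := hMlt i.castSucc b (by rw [h3]; exact Fin.castSucc_lt_last i)
        have h5 : x = M b := by rw [← hPidx b, hx, h1]
        omega
    have hxlt : x < M b := lt_of_le_of_ne hxb hxne
    have h1 : idx 0 + l < idx b := by
      rw [← hnmono.lt_iff_lt, hPidx]
      exact hxlt
    have h2 : Nat.nth Nat.Prime (idx 0 + l + 1) ≤ M b := by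
      rw [← hPidx b]
      exact hnmono.monotone h1
    have h3 : (Nat.nth Nat.Prime (idx 0 + l + 1) : ℝ) ≤ M b := by exact_mod_cast h2
    have h4 := (abs_le.1 ((hmem _ _).1 (hMC b)).2).2
    have h5 := (abs_le.1 ((hmem _ _).1 hb).2).1
    linarith
  · rintro l ⟨i, hi⟩
    simp only at hi
    set x := Nat.nth Nat.Prime (idx 0 + l) with hx
    have hxp : x.Prime := Nat.prime_nth_prime _
    have hx1 : M 0 ≤ x := by
      rw [← hPidx 0, hx]
      exact hnmono.monotone (by omega)
    have hx2 : x ≤ m i.succ := by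
      rw [← hnext, hx]
      apply hnmono.monotone
      have := hnj i.castSucc
      omega
    obtain ⟨h1, h2, _⟩ := hwin x hxp hx1 ⟨_, _, hmC i.succ, hx2⟩
    exact ⟨h2, h1⟩

end Pool.Agent.N790.LC
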