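import Mathlib
import Pool.Agent.W126.MultiCore
import Pool.Agent.H362R2.RQ.Fin

set_option autoImplicit false

/-! Prescribed shapes at all but boundedly many of any number of levels at once, with a precision which may
depend on the level (the proof is that of `Pool.Agent.W126.MultiA`). -/

open Finset Filter

namespace Pool.Agent.N790.LC

open Pool.Agent.H256R2.SC (ff)
open Pool.Agent.H312R2.RG.C3 (ff_tendsto ff_small)
open Pool.Agent.H362R2.RQ (stRQ exists_pow_eta)
open Pool.Agent.W126.View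
open Pool.Agent.W126.Words
open Pool.Agent.W126.MultiCore

theorem multiV (k : ℕ) (hk : 1 ≤ k) : ∃ L : ℕ, ∀ N : ℕ, ∃ K : ℕ, ∃ c : ℝ, 0 < c ∧
    ∀ τ : ℝ, 0 < τ → ∀ q a : ℕ, Squarefree q → a.Coprime q → ∀ᶠ X : ℝ in atTop,
    ∀ r e : Fin N → ℝ, (∀ i, τ * Real.log X ≤ e i ∧ e i ≤ r i ∧ r i ≤ c * ff X) →
    (∀ i j : Fin N, i < j → 80 * r j ≤ e i) →
    ∀ U : Fin N → Fin k → ℝ, (∀ i b, |U i b| ≤ r i) →
    ∃ (E : Finset (Fin N)) (o : Fin N → Fin k), E.card ≤ L ∧ (∀ i ∈ E, ∃ b b', U i b ≠ U i b') ∧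
      X ^ (7 / 8 : ℝ) ≤ ({p : ℕ | p.Prime ∧ X + c * ff X < p ∧ (p : ℝ) + c * ff X ≤ 4 * X ∧
        {p' : ℕ | p'.Prime ∧ |(p' : ℝ) - p| ≤ c * ff X}.ncard ≤ K ∧
        ∀ i, i ∉ E → Sees q a (r i) (e i) (fun b => U i b - U i (o i)) p}.ncard : ℝ) := by
  classical
  obtain ⟨η, hη, hcore⟩ := core stRQ
  obtain ⟨l, hl⟩ := exists_pow_eta k hk η hη
  refine ⟨l, fun N => ?_⟩
  obtain ⟨K, hK, cp, hcp, hcore2⟩ := hcore N k hk
  refine ⟨K, cp / (16 * (N + 1)), by positivity, fun τ hτ q a hq ha => ?_⟩
  obtain ⟨c, hcdef⟩ : ∃ c : ℝ, c = cp / (16 * (N + 1)) := ⟨_, rfl⟩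
  have hN0 : (0 : ℝ) ≤ N := Nat.cast_nonneg N
  have hc : 0 < c := by rw [hcdef]; positivity
  have hccp : 16 * (N + 1) * c = cp := by rw [hcdef]; field_simp
  have hccp' : 16 * c ≤ cp := by
    rw [← hccp]
    nlinarith
  rw [← hcdef]
  have hev := hcore2 q a hq ha (τ / 32) (by positivity)
  filter_upwards [hev, bad_small (2 ^ N * k ^ N) cp hcp, ff_small cp hcp, eventually_ge_atTop (1 : ℝ),
    Real.tendsto_log_atTop.eventually_gt_atTop 0,
    Pool.Agent.H672R3.InfRec.scale_ev (cp / (8 * τ)) (by positivity)]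
    with X hmain hbad hsmall hX1 hlog hscale0
  have hscale : τ * Real.log X ≤ cp * ff X / 8 := by
    have := mul_le_mul_of_nonneg_left hscale0 hτ.le
    calc τ * Real.log X ≤ τ * (cp / (8 * τ) * ff X) := this
      _ = _ := by field_simp
  intro r e hre hd U hU
  have hepos : ∀ i, 0 < e i := fun i => (mul_pos hτ hlog).trans_le (hre i).1
  have hrpos : ∀ i, 0 < r i := fun i => (hepos i).trans_le (hre i).2.1
  set g : Fin N → ℝ := fun i => e i / 2 with hg
  have hg0 : ∀ i, 0 < g i := fun i => by simp only [hg]; have := hepos i; positivity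
  set y : Fin N → Fin k → ℝ := fun i b => rd (g i) (U i b) with hy
  have hyb : ∀ i b, |y i b| ≤ 2 * r i := by
    intro i b
    have h1 := abs_le.1 (rd_near (g i) (U i b) (hg0 i))
    have h2 := abs_le.1 (hU i b)
    have h3 := (hre i).2.1
    have h4 := hrpos i
    simp only [hy]
    simp only [hg] at h1
    rw [abs_le]
    constructor
    · simp only [hg]; linarith [h1.1, h1.2, h2.1, h2.2]
    · simp only [hg]; linarith [h1.1, h1.2, h2.1, h2.2]
  have hcffpos : 0 < cp * ff X := by
    have := mul_pos hτ hlog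
    linarith
  have hcff0 : 0 < c * ff X := by
    have e1 : cp * ff X = 16 * (N + 1) * (c * ff X) := by rw [← hccp]; ring
    by_contra hcon
    push Not at hcon
    have : 16 * ((N : ℝ) + 1) * (c * ff X) ≤ 0 := mul_nonpos_of_nonneg_of_nonpos (by positivity) hcon
    linarith
  have hcff16 : 16 * (c * ff X) ≤ cp * ff X := by
    have e1 : cp * ff X = 16 * (N + 1) * (c * ff X) := by rw [← hccp]; ring
    rw [e1]
    have : 0 ≤ (N : ℝ) * (c * ff X) := by positivity
    linarith
  have hsum : ∀ w : Fin N → Fin k, |∑ i, y i (w i)| ≤ cp * ff X / 8 := by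
    intro w
    calc |∑ i, y i (w i)| ≤ ∑ i, |y i (w i)| := Finset.abs_sum_le_sum_abs _ _
      _ ≤ ∑ _i : Fin N, 2 * (c * ff X) := by
        apply Finset.sum_le_sum
        intro i _
        have h1 := hyb i (w i)
        have h2 := (hre i).2.2
        linarith
      _ = N * (2 * (c * ff X)) := by rw [sum_const, card_univ, Fintype.card_fin, nsmul_eq_mul]
      _ ≤ cp * ff X / 8 := by
        have e1 : cp * ff X = 16 * (N + 1) * (c * ff X) := by rw [← hccp]; ring
        rw [e1]
        linarith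
  -- tails
  have htail : ∀ i : Fin N, ∑ j ∈ Finset.Ioi i, r j ≤ e i / 79 := by
    intro i
    have h := tail_sum (fun j => if j = i then e i else r j) 80 (by norm_num)
      (fun j => by
        split_ifs
        · exact (hepos i).le
        · exact (hrpos j).le) (by
        intro i' j' hij
        by_cases h1 : i' = i
        · subst h1
          rw [if_pos rfl, if_neg hij.ne']
          exact hd _ _ hij
        · rw [if_neg h1]
          by_cases h2 : j' = i
          · subst h2
            rw [if_pos rfl]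
            have h3 := hd _ _ hij
            have h4 := (hre j').2.1
            have h5 := (hre i').2.1
            linarith
          · rw [if_neg h2]
            have h3 := hd _ _ hij
            have h5 := (hre i').2.1
            linarith) i
    have h1 : ∑ j ∈ Finset.Ioi i, (if j = i then e i else r j) = ∑ j ∈ Finset.Ioi i, r j := by
      apply Finset.sum_congr rfl
      intro j hj
      rw [mem_Ioi] at hj
      rw [if_neg hj.ne']
    rw [h1, if_pos rfl] at h
    refine h.trans (le_of_eq ?_)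
    norm_num
  have hσ : ∀ (i : Fin N) (w w' : Fin N → Fin k),
      |∑ i' ∈ Finset.Ioi i, (y i' (w' i') - y i' (w i'))| ≤ e i / 16 := by
    intro i w w'
    calc |∑ i' ∈ Finset.Ioi i, (y i' (w' i') - y i' (w i'))| ≤
        ∑ i' ∈ Finset.Ioi i, |y i' (w' i') - y i' (w i')| := Finset.abs_sum_le_sum_abs _ _
      _ ≤ ∑ i' ∈ Finset.Ioi i, 4 * r i' := by
        apply Finset.sum_le_sum
        intro i' _
        have h1 := abs_le.1 (hyb i' (w' i'))
        have h2 := abs_le.1 (hyb i' (w i'))
        rw [abs_le]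
        constructor <;> linarith [h1.1, h1.2, h2.1, h2.2]
      _ = 4 * ∑ i' ∈ Finset.Ioi i, r i' := by rw [Finset.mul_sum]
      _ ≤ 4 * (e i / 79) := by linarith [htail i]
      _ ≤ e i / 16 := by linarith [hepos i]
  -- suppose the theorem fails
  by_contra hcon
  push Not at hcon
  set S : Finset (Fin N) × (Fin N → Fin k) → Set ℕ := fun u => if u.1.card ≤ l ∧
    ∀ i ∈ u.1, ∃ b b', U i b ≠ U i b' then
    {p : ℕ | p.Prime ∧ X + c * ff X < p ∧ (p : ℝ) + c * ff X ≤ 4 * X ∧
        {p' : ℕ | p'.Prime ∧ |(p' : ℝ) - p| ≤ c * ff X}.ncard ≤ K ∧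
        ∀ i, i ∉ u.1 → Sees q a (r i) (e i) (fun b => U i b - U i (u.2 i)) p} else ∅ with hS
  have hSfin : ∀ u, (S u).Finite := by
    intro u
    apply (Set.finite_Iic ⌊4 * X⌋₊).subset
    intro p hp
    simp only [hS] at hp
    split_ifs at hp with h1
    · rw [Set.mem_Iic]
      apply Nat.le_floor
      linarith [hp.2.2.1]
    · exact absurd hp (Set.notMem_empty p)
  have hScard : ∀ u, ((S u).ncard : ℝ) < X ^ (7 / 8 : ℝ) := by
    intro u
    simp only [hS]
    split_ifs with h1
    · exact hcon u.1 u.2 h1.1 h1.2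
    · rw [Set.ncard_empty, Nat.cast_zero]
      exact Real.rpow_pos_of_pos (by linarith) _
  obtain ⟨bad, hbad1, hbad2⟩ := hbad (Finset (Fin N) × (Fin N → Fin k)) S (by
    rw [Fintype.card_prod, Fintype.card_finset, Fintype.card_fin]
    simp) hSfin hScard
  obtain ⟨n, hn1, hn2, hn3, G, hG, hhit, hall, hKn⟩ := hmain y hsum bad hbad1
  -- a word with few levels that are not full
  obtain ⟨w, hw, hwl⟩ := few N l G (by
    rw [Fintype.card_fin]
    have h1 : (((k - 1) ^ l * k ^ N : ℕ) : ℝ) < ((G.card * k ^ l : ℕ) : ℝ) := by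
      push_cast
      have hkN : (0 : ℝ) < (k : ℝ) ^ N := by
        have : (0 : ℝ) < k := by exact_mod_cast hk
        positivity
      have hkl : (0 : ℝ) ≤ (k : ℝ) ^ l := by positivity
      calc ((k - 1 : ℕ) : ℝ) ^ l * (k : ℝ) ^ N < η * (k : ℝ) ^ l * (k : ℝ) ^ N :=
            mul_lt_mul_of_pos_right hl hkN
        _ = (η * (k : ℝ) ^ N) * (k : ℝ) ^ l := by ring
        _ ≤ G.card * (k : ℝ) ^ l := mul_le_mul_of_nonneg_right hG hkl
    exact_mod_cast h1)
  obtain ⟨p, hp, hpa, hpw⟩ := hhit w hw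
  have hpos : ∀ w : Fin N → Fin k, cp * ff X * (3 / 8) ≤ pos (cp * ff X / 2) y w ∧
      pos (cp * ff X / 2) y w ≤ cp * ff X * (5 / 8) := by
    intro w
    have := abs_le.1 (hsum w)
    unfold pos
    constructor <;> linarith
  have hτ8 : τ / 32 * Real.log X ≤ cp * ff X / 256 := by linarith
  have hpw' := abs_le.1 hpw
  have hposw := hpos w
  have hpge : (n : ℝ) + cp * ff X / 4 ≤ p := by linarith [hpw'.1]
  have hple : (p : ℝ) ≤ n + cp * ff X * (3 / 4) := by linarith [hpw'.2]
  have hnp : n ≤ p := by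
    have : (n : ℝ) ≤ p := by linarith
    exact_mod_cast this
  apply hn3
  refine hbad2 n p ((univ.filter (fun i => ¬ Full G w i ∧ ∃ b b', U i b ≠ U i b')), w) ?_ hnp (by linarith)
  simp only [hS]
  rw [if_pos ⟨(Finset.card_le_card (fun i hi => by
    rw [mem_filter] at hi ⊢
    exact ⟨hi.1, hi.2.1⟩)).trans hwl.le, fun i hi => (mem_filter.1 hi).2.2⟩]
  refine ⟨hp, by linarith, by linarith, ?_, ?_⟩
  · refine le_trans (Set.ncard_le_ncard ?_ ?_) hKn
    · rintro p' ⟨hp', hd⟩
      have hd' := abs_le.1 hd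
      refine ⟨hp', ?_, ?_⟩
      · have : (n : ℝ) ≤ p' := by linarith [hd'.1]
        exact_mod_cast this
      · linarith [hd'.2]
    · apply (Set.finite_Iic ⌊(n : ℝ) + cp * ff X⌋₊).subset
      rintro p' ⟨_, _, h3⟩
      exact Nat.le_floor h3
  · intro i hi
    have hfull : ∀ b, ∃ w' ∈ G, (∀ i' : Fin N, i' < i → w' i' = w i') ∧ y i (w' i) = y i b := by
      intro b
      by_cases hnf : Full G w i
      · obtain ⟨w', hw', h1, h2⟩ := hnf b
        exact ⟨w', hw', h1, by rw [h2]⟩
      · refine ⟨w, hw, fun _ _ => rfl, ?_⟩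
        have h1 : U i (w i) = U i b := by
          by_contra hne
          exact hi (mem_filter.2 ⟨mem_univ _, hnf, w i, b, hne⟩)
        simp only [hy]
        rw [h1]
    have hei := hepos i
    have hsees := view q a n (cp * ff X / 2) (τ / 32 * Real.log X) (cp * ff X) (r i) (e i / 8) y
      (fun i => e i / 16) G hhit hall hσ i (by
        intro i0 hi0 b b' hbb
        have he0 := hepos i0
        have h1 : rd (g i0) (U i0 b) ≠ rd (g i0) (U i0 b') := fun h => hbb (by simp only [hy]; rw [h])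
        have h2 := rd_sep (g i0) _ _ (hg0 i0) h1
        have h3 : e i0 / 2 ≤ |y i0 b - y i0 b'| := by
          simp only [hy]
          simpa only [hg] using h2
        have h4 := hd i0 i hi0
        have h6 := (hre i0).1
        linarith) (by
        have h6 := (hre i).1
        linarith) (by
        intro w'
        have h1 := hpos w'
        have h2 := (hre i).2.2
        constructor <;> linarith [h1.1, h1.2]) w p hpw hfull
    have key : ∀ b, |(y i b - y i (w i)) - (U i b - U i (w i))| ≤ e i / 2 := by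
      intro b
      have h1 := abs_le.1 (rd_near (g i) (U i b) (hg0 i))
      have h2 := abs_le.1 (rd_near (g i) (U i (w i)) (hg0 i))
      simp only [hy]
      simp only [hg] at h1 h2 ⊢
      rw [abs_le]
      constructor <;> linarith [h1.1, h1.2, h2.1, h2.2]
    refine ⟨fun p' hp' hd' => ?_, fun b => ?_⟩
    · obtain ⟨h1, b, h2⟩ := hsees.1 p' hp' hd'
      refine ⟨h1, b, ?_⟩
      have h3 := abs_le.1 (key b)
      have h4 := abs_le.1 h2
      rw [abs_le]
      constructor <;> linarith [h3.1, h3.2, h4.1, h4.2]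
    · obtain ⟨p', hp', h1, h2⟩ := hsees.2 b
      refine ⟨p', hp', h1, ?_⟩
      have h3 := abs_le.1 (key b)
      have h4 := abs_le.1 h2
      rw [abs_le]
      constructor <;> linarith [h3.1, h3.2, h4.1, h4.2]

end Pool.Agent.N790.LC
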