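import Mathlib
import Pool.Agent.N790.LC.MultiV
import Pool.Agent.N790.LC.Gaps

set_option autoImplicit false

/-! All small vectors of gaps, and all vectors of gaps up to a bounded error, at every scale up to the record
size of the prime gaps. -/

open Finset Filter

namespace Pool.Agent.N790.LC

open Pool.Agent.H256R2.SC (ff)
open Pool.Agent.H312R2.RG.C3 (ff_tendsto ff_small)
open Pool.Agent.W126.View

/-- the prime with index `n` -/
noncomputable def P (n : ℕ) : ℕ := Nat.nth Nat.Prime n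

/-- the prime gaps from the index `n` on, divided by `h`, are `v 0, …, v (k-1)`, up to `ε`, with at most `K`
gaps `≤ ε` inserted; all these primes are `≡ a (mod q)` -/
def Realises {k : ℕ} (q a K : ℕ) (h ε : ℝ) (v : Fin k → ℝ) (n : ℕ) : Prop :=
  ∃ j : Fin k → ℕ, StrictMono j ∧ (∀ i : Fin k, (i : ℕ) = 0 → j i = 0) ∧ (∀ i, j i < K) ∧
    (∀ i, |((P (n + j i + 1) : ℝ) - P (n + j i)) / h - v i| ≤ ε) ∧
    (∀ l, (∃ i, l < j i) → (∀ i, l ≠ j i) → ((P (n + l + 1) : ℝ) - P (n + l)) / h ≤ ε) ∧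
    (∀ l, (∃ i, l ≤ j i + 1) → P (n + l) ≡ a [MOD q])

theorem P_mono : StrictMono P := Nat.nth_strictMono Nat.infinite_setOfPred_prime

theorem Realises.mono {k : ℕ} {q a K : ℕ} {h ε ε' : ℝ} {v v' : Fin k → ℝ} {n : ℕ}
    (hr : Realises q a K h ε v n) (hv : ∀ i, |v i - v' i| + ε ≤ ε') (hε : ε ≤ ε') :
    Realises q a K h ε' v' n := by
  obtain ⟨j, h1, h2, h3, h4, h5, h6⟩ := hr
  refine ⟨j, h1, h2, h3, fun i => ?_, fun l hl hl' => (h5 l hl hl').trans hε, h6⟩
  have h7 := h4 i
  have h8 := hv i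
  have h9 := abs_sub_le (((P (n + j i + 1) : ℝ) - P (n + j i)) / h) (v i) (v' i)
  linarith

/-- partial sums -/
noncomputable def ps {k : ℕ} (v : Fin k → ℝ) (b : Fin (k + 1)) : ℝ :=
  ∑ i ∈ univ.filter (fun i : Fin k => (i : ℕ) < b), v i

theorem ps_step {k : ℕ} (v : Fin k → ℝ) (i : Fin k) : ps v i.succ - ps v i.castSucc = v i := by
  unfold ps
  have h1 : univ.filter (fun i' : Fin k => (i' : ℕ) < (i.succ : Fin (k + 1))) =
      insert i (univ.filter (fun i' : Fin k => (i' : ℕ) < (i.castSucc : Fin (k + 1)))) := by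
    ext i'
    simp only [mem_filter, mem_univ, true_and, mem_insert, Fin.val_succ, Fin.val_castSucc]
    rw [Nat.lt_succ_iff_lt_or_eq, Fin.ext_iff]
    tauto
  rw [h1, sum_insert (by simp)]
  ring

theorem ps_nonneg {k : ℕ} (v : Fin k → ℝ) (hv : ∀ i, 0 ≤ v i) (b : Fin (k + 1)) : 0 ≤ ps v b :=
  sum_nonneg fun i _ => hv i

theorem ps_le {k : ℕ} (v : Fin k → ℝ) (hv : ∀ i, 0 ≤ v i) (b : Fin (k + 1)) : ps v b ≤ ∑ i, v i :=
  sum_le_sum_of_subset_of_nonneg (filter_subset _ _) fun i _ _ => hv i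

/-- the chain theorem at one `X` -/
theorem chainX (k : ℕ) (hk : 1 ≤ k) : ∃ (L K : ℕ) (c : ℝ), 0 < c ∧
    ∀ τ : ℝ, 0 < τ → ∀ q a : ℕ, Squarefree q → a.Coprime q → ∀ᶠ X : ℝ in atTop,
    ∀ h : ℝ, Real.log X ≤ h → ∀ (v : Fin (L + 1) → Fin k → ℝ) (ε : Fin (L + 1) → ℝ),
    (∀ i, τ ≤ ε i) → (∀ i b, ε i ≤ v i b) →
    (∀ i j : Fin (L + 1), i < j → 1280 * ∑ b, v j b ≤ ε i) → 4 * (∑ b, v 0 b) * h ≤ c * ff X →
    ∃ i, X ^ (4 / 5 : ℝ) ≤ ({n : ℕ | X < P n ∧ (P n : ℝ) ≤ 4 * X ∧
      Realises q a K h (ε i / 4) (v i) n}.ncard : ℝ) := by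
  classical
  obtain ⟨L, hL⟩ := multiV (k + 1) (by omega)
  obtain ⟨K, c, hc, hmain⟩ := hL (L + 1)
  refine ⟨L, K, c, hc, fun τ hτ q a hq ha => ?_⟩
  have hKX : ∀ᶠ X : ℝ in atTop, (K : ℝ) * X ^ (4 / 5 : ℝ) ≤ X ^ (7 / 8 : ℝ) := by
    have h1 := tendsto_rpow_atTop (show (0 : ℝ) < 3 / 40 by norm_num)
    filter_upwards [h1.eventually_ge_atTop (K : ℝ), eventually_gt_atTop (0 : ℝ)] with X h2 h3
    have h4 : X ^ (7 / 8 : ℝ) = X ^ (3 / 40 : ℝ) * X ^ (4 / 5 : ℝ) := by
      rw [← Real.rpow_add h3]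
      norm_num
    rw [h4]
    exact mul_le_mul_of_nonneg_right h2 (Real.rpow_nonneg h3.le _)
  filter_upwards [hmain (τ / 8) (by positivity) q a hq ha, hKX,
    Real.tendsto_log_atTop.eventually_gt_atTop 0, eventually_gt_atTop (0 : ℝ)] with X hX hK2 hlog hX0
  intro h hh v ε hτε hεv hch htop
  have hh0 : 0 < h := hlog.trans_le hh
  have hε0 : ∀ i, 0 < ε i := fun i => hτ.trans_le (hτε i)
  have hv0 : ∀ i b, 0 ≤ v i b := fun i b => (hε0 i).le.trans (hεv i b)
  set s : Fin (L + 1) → ℝ := fun i => ∑ b, v i b with hs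
  have hεs : ∀ i, ε i ≤ s i := by
    intro i
    have h1 := hεv i ⟨0, hk⟩
    have h2 : v i ⟨0, hk⟩ ≤ s i := single_le_sum (f := fun b => v i b) (fun b _ => hv0 i b) (mem_univ _)
    linarith
  have hs0 : ∀ i, s i ≤ s 0 := by
    intro i
    rcases (Fin.zero_le i).eq_or_lt with h1 | h1
    · rw [← h1]
    · have h2 := hch 0 i h1
      have h3 := hεs 0
      have h4 := (hε0 i).le.trans (hεs i)
      simp only [hs] at *
      linarith
  set r : Fin (L + 1) → ℝ := fun i => 2 * (h * s i) with hr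
  set e : Fin (L + 1) → ℝ := fun i => h * ε i / 8 with he
  set U : Fin (L + 1) → Fin (k + 1) → ℝ := fun i b => h * ps (v i) b with hU
  have hspos : ∀ i, 0 < s i := fun i => (hε0 i).trans_le (hεs i)
  have her : ∀ i, e i ≤ r i := by
    intro i
    simp only [he, hr]
    have h1 := mul_le_mul_of_nonneg_left (hεs i) hh0.le
    have h2 := mul_pos hh0 (hspos i)
    linarith
  have hrc : ∀ i, 2 * r i ≤ c * ff X := by
    intro i
    have h1 := mul_le_mul_of_nonneg_left (hs0 i) hh0.le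
    simp only [hr]
    have h2 : 4 * (s 0) * h ≤ c * ff X := htop
    linarith
  have hrpos : ∀ i, 0 < r i := fun i => by
    have := mul_pos hh0 (hspos i)
    simp only [hr]
    linarith
  obtain ⟨E, o, hE, _, hcard⟩ := hX r e (by
    intro i
    refine ⟨?_, her i, by linarith [hrc i, hrpos i]⟩
    simp only [he]
    have h1 : τ * Real.log X ≤ ε i * h := mul_le_mul (hτε i) hh hlog.le (hε0 i).le
    linarith) (by
    intro i j hij
    have h1 := hch i j hij
    have h2 := mul_le_mul_of_nonneg_left h1 hh0.le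
    simp only [hr, he, hs]
    linarith) U (by
    intro i b
    have h1 := ps_nonneg (v i) (hv0 i) b
    have h2 := ps_le (v i) (hv0 i) b
    have h3 := mul_le_mul_of_nonneg_left h2 hh0.le
    have h4 := mul_nonneg hh0.le h1
    have h5 := mul_pos hh0 (hspos i)
    simp only [hU, hr]
    rw [abs_of_nonneg h4]
    simp only [hs] at h5 ⊢
    linarith)
  obtain ⟨i, hi⟩ : ∃ i, i ∉ E := by
    by_contra hcon
    push Not at hcon
    have h1 : (univ : Finset (Fin (L + 1))) ⊆ E := fun i _ => hcon i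
    have h2 := card_le_card h1
    rw [card_univ, Fintype.card_fin] at h2
    omega
  refine ⟨i, ?_⟩
  set S : Set ℕ := {p : ℕ | p.Prime ∧ X + c * ff X < p ∧ (p : ℝ) + c * ff X ≤ 4 * X ∧
        {p' : ℕ | p'.Prime ∧ |(p' : ℝ) - p| ≤ c * ff X}.ncard ≤ K ∧
        ∀ i, i ∉ E → Sees q a (r i) (e i) (fun b => U i b - U i (o i)) p} with hS
  have hfinwin : ∀ p : ℕ, {p' : ℕ | p'.Prime ∧ |(p' : ℝ) - p| ≤ c * ff X}.Finite := by
    intro p
    apply (Set.finite_Iic ⌊(p : ℝ) + c * ff X⌋₊).subset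
    rintro p' ⟨_, h1⟩
    rw [Set.mem_Iic]
    apply Nat.le_floor
    linarith [(abs_le.1 h1).2]
  have hSfin : S.Finite := by
    apply (Set.finite_Iic ⌊4 * X⌋₊).subset
    intro p hp
    rw [Set.mem_Iic]
    apply Nat.le_floor
    have h1 := hrpos i
    have h2 := hrc i
    linarith [hp.2.2.1]
  -- from `p` to `n`
  have hstep : ∀ p ∈ S, ∃ n : ℕ, |(P n : ℝ) - p| ≤ r i ∧ Realises q a K h (ε i / 4) (v i) n := by
    intro p hp
    have hsees := hp.2.2.2.2 i hi
    obtain ⟨n, j, hj1, hj2, hj3, hj4, hj5⟩ := clusters (T := fun b => U i b - U i (o i))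
      (by
        simp only [he]
        have := mul_pos hh0 (hε0 i)
        positivity : (0 : ℝ) ≤ e i) hsees (by
      intro b
      have h1 := ps_step (v i) b
      have h2 : (U i b.succ - U i (o i)) - (U i b.castSucc - U i (o i)) = h * v i b := by
        simp only [hU]
        rw [← h1]
        ring
      rw [h2]
      simp only [he]
      have h3 := mul_le_mul_of_nonneg_left (hεv i b) hh0.le
      have h4 := mul_pos hh0 (hε0 i)
      linarith) (by
      intro b
      have h1 := ps_nonneg (v i) (hv0 i) b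
      have h2 := ps_le (v i) (hv0 i) b
      have h3 := ps_nonneg (v i) (hv0 i) (o i)
      have h4 := ps_le (v i) (hv0 i) (o i)
      have h5 : |U i b - U i (o i)| ≤ h * s i := by
        simp only [hU, hs]
        rw [← mul_sub, abs_mul, abs_of_pos hh0]
        apply mul_le_mul_of_nonneg_left _ hh0.le
        rw [abs_le]
        constructor <;> linarith
      have h6 : e i ≤ h * s i := by
        simp only [he]
        have h7 := mul_le_mul_of_nonneg_left (hεs i) hh0.le
        have h8 := mul_pos hh0 (hε0 i)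
        linarith
      simp only [hr]
      linarith)
    have hk0 : ∃ i' : Fin k, (i' : ℕ) = 0 := ⟨⟨0, hk⟩, rfl⟩
    obtain ⟨i0, hi0⟩ := hk0
    have hn0 := (hj5 0 ⟨i0, Nat.zero_le _⟩).2
    rw [add_zero] at hn0
    refine ⟨n, hn0, j, hj1, hj2, ?_, ?_, ?_, ?_⟩
    · intro i'
      have h1 : (range (j i' + 2)).card ≤ {p' : ℕ | p'.Prime ∧ |(p' : ℝ) - p| ≤ c * ff X}.ncard := by
        rw [Set.ncard_eq_toFinset_card _ (hfinwin p)]
        apply card_le_card_of_injOn (fun l => P (n + l))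
        · intro l hl
          rw [coe_range, Set.mem_Iio] at hl
          rw [mem_coe, Set.Finite.mem_toFinset]
          refine ⟨Nat.prime_nth_prime _, ?_⟩
          have h2 := (hj5 l ⟨i', by omega⟩).2
          have h3 := hrc i
          have h4 := hrpos i
          show |(Nat.nth Nat.Prime (n + l) : ℝ) - p| ≤ c * ff X
          linarith
        · intro l _ l' _ hll
          have := P_mono.injective hll
          omega
      rw [card_range] at h1
      have h2 := hp.2.2.2.1
      omega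
    · intro i'
      have h1 := hj3 i'
      have h2 := ps_step (v i) i'
      have h3 : (U i i'.succ - U i (o i)) - (U i i'.castSucc - U i (o i)) = h * v i i' := by
        simp only [hU]
        rw [← h2]
        ring
      rw [h3] at h1
      have h4 : ((P (n + j i' + 1) : ℝ) - P (n + j i')) / h - v i i' =
          (((P (n + j i' + 1) : ℝ) - P (n + j i')) - h * v i i') / h := by field_simp
      rw [h4, abs_div, abs_of_pos hh0, div_le_iff₀ hh0]
      refine h1.trans (le_of_eq ?_)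
      simp only [he]
      ring
    · intro l hl hl'
      have h1 := hj4 l hl hl'
      rw [div_le_iff₀ hh0]
      refine h1.trans (le_of_eq ?_)
      simp only [he]
      ring
    · intro l hl
      exact (hj5 l hl).1
  choose! N hN1 hN2 using hstep
  set A : Set ℕ := {n : ℕ | X < P n ∧ (P n : ℝ) ≤ 4 * X ∧ Realises q a K h (ε i / 4) (v i) n} with hA
  have hAfin : A.Finite := by
    have h1 : Set.InjOn P {n : ℕ | (P n : ℝ) ≤ 4 * X} := fun x _ y _ hxy => P_mono.injective hxy
    apply Set.Finite.of_finite_image (f := P) _ (h1.mono fun n hn => hn.2.1)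
    apply (Set.finite_Iic ⌊4 * X⌋₊).subset
    rintro _ ⟨n, hn, rfl⟩
    exact Nat.le_floor hn.2.1
  have hSA : ∀ p ∈ S, N p ∈ A := by
    intro p hp
    have h1 := abs_le.1 (hN1 p hp)
    have h2 := hrc i
    have h3 := hrpos i
    refine ⟨by linarith [hp.2.1], by linarith [hp.2.2.1], hN2 p hp⟩
  have hcount : hSfin.toFinset.card ≤ K * (hSfin.toFinset.image N).card := by
    apply card_le_mul_card_image
    intro n _
    rcases (hSfin.toFinset.filter (fun x => N x = n)).eq_empty_or_nonempty with h1 | ⟨p0, hp0⟩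
    · rw [h1, card_empty]
      exact Nat.zero_le _
    · rw [mem_filter, Set.Finite.mem_toFinset] at hp0
      refine le_trans ?_ hp0.1.2.2.2.1
      rw [Set.ncard_eq_toFinset_card _ (hfinwin p0)]
      apply card_le_card
      intro p hp
      rw [mem_filter, Set.Finite.mem_toFinset] at hp
      rw [Set.Finite.mem_toFinset]
      refine ⟨hp.1.1, ?_⟩
      have h2 := abs_le.1 (hN1 p hp.1)
      have h3 := abs_le.1 (hN1 p0 hp0.1)
      rw [hp.2] at h2
      rw [hp0.2] at h3
      have h4 := hrc i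
      rw [abs_le]
      constructor <;> linarith [h2.1, h2.2, h3.1, h3.2]
  have himg : (hSfin.toFinset.image N).card ≤ A.ncard := by
    rw [Set.ncard_eq_toFinset_card _ hAfin]
    apply card_le_card
    intro n hn
    rw [mem_image] at hn
    obtain ⟨p, hp, rfl⟩ := hn
    rw [Set.Finite.mem_toFinset] at hp ⊢
    exact hSA p hp
  have h1 : X ^ (7 / 8 : ℝ) ≤ (K : ℝ) * A.ncard := by
    have h2 : (S.ncard : ℝ) ≤ (K : ℝ) * A.ncard := by
      rw [Set.ncard_eq_toFinset_card _ hSfin]
      exact_mod_cast hcount.trans (Nat.mul_le_mul_left K himg)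
    exact hcard.trans h2
  have hKpos : (0 : ℝ) < K := by
    by_contra hcon
    have h2 : (K : ℝ) = 0 := le_antisymm (not_lt.1 hcon) (Nat.cast_nonneg K)
    rw [h2, zero_mul] at h1
    exact absurd h1 (not_le.2 (Real.rpow_pos_of_pos hX0 _))
  have h2 : (K : ℝ) * X ^ (4 / 5 : ℝ) ≤ K * A.ncard := hK2.trans h1
  exact le_of_mul_le_mul_left h2 hKpos

end Pool.Agent.N790.LC
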