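import Mathlib
import Pool.Agent.N790.LC.Cube

set_option autoImplicit false

/-! All small vectors of gaps, and all vectors of gaps up to a bounded error, at every scale up to the record
size of the prime gaps: the limit statements. -/

open Finset Filter Topology

namespace Pool.Agent.N790.LC

open Pool.Agent.H256R2.SC (ff)

/-- `H` lies between `log` and the record size of the gaps and varies slowly -/
def Scale (H : ℝ → ℝ) : Prop :=
  (∀ᶠ x : ℝ in atTop, Real.log x ≤ H x ∧ H x ≤ ff x) ∧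
  ∀ δ : ℝ, 0 < δ → ∀ᶠ x : ℝ in atTop, ∀ y : ℝ, x ≤ y → y ≤ 4 * x → |H y / H x - 1| < δ

/-- the set of the `n` with `p_n` in `(X, 4X]` which realise `v` up to `ε` -/
def Occ {k : ℕ} (H : ℝ → ℝ) (q a K : ℕ) (X ε : ℝ) (v : Fin k → ℝ) : Set ℕ :=
  {n : ℕ | X < P n ∧ (P n : ℝ) ≤ 4 * X ∧ Realises q a K (H (P n)) ε v n}

theorem fin_le (X : ℝ) : {n : ℕ | (P n : ℝ) ≤ 4 * X}.Finite := by
  have h1 : Set.InjOn P {n : ℕ | (P n : ℝ) ≤ 4 * X} := fun x _ y _ hxy => P_mono.injective hxy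
  apply Set.Finite.of_finite_image (f := P) _ h1
  apply (Set.finite_Iic ⌊4 * X⌋₊).subset
  rintro _ ⟨n, hn, rfl⟩
  exact Nat.le_floor hn

theorem Occ_mono {k : ℕ} {H : ℝ → ℝ} {q a K : ℕ} {X ε ε' : ℝ} {v v' : Fin k → ℝ}
    (hv : ∀ i, |v i - v' i| + ε ≤ ε') (hε : ε ≤ ε') :
    ((Occ H q a K X ε v).ncard : ℝ) ≤ ((Occ H q a K X ε' v').ncard : ℝ) := by
  rw [Nat.cast_le]
  apply Set.ncard_le_ncard
  · intro n hn
    exact ⟨hn.1, hn.2.1, hn.2.2.mono hv hε⟩
  · exact (fin_le X).subset fun n hn => hn.2.1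

theorem Realises.renorm {k : ℕ} {q a K : ℕ} {h h' ε δ B : ℝ} {v : Fin k → ℝ} {n : ℕ} (hh : 0 < h)
    (hρ : |h' / h - 1| < δ) (hδ : δ ≤ 1 / 2) (hv : ∀ i, 0 ≤ v i ∧ v i ≤ B) (hε : 0 < ε)
    (hδε : δ * (4 * (B + ε)) ≤ ε) (hr : Realises q a K h (ε / 4) v n) : Realises q a K h' ε v n := by
  obtain ⟨j, h1, h2, h3, h4, h5, h6⟩ := hr
  have hρ' := abs_lt.1 hρ
  have hδ0 : 0 < δ := (abs_nonneg _).trans_lt hρ
  have hh' : 0 < h' := by
    have h7 : 0 < h' / h := by linarith [hρ'.1]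
    have h8 : h' = h' / h * h := by field_simp
    rw [h8]
    positivity
  have hinv : ∀ g : ℝ, 0 ≤ g → |g / h' - g / h| ≤ 2 * δ * (g / h) := by
    intro g hg
    have h7 : 1 / 2 * h ≤ h' := by
      have h8 : 1 / 2 ≤ h' / h := by linarith [hρ'.1]
      rw [le_div_iff₀ hh] at h8
      exact h8
    have h8 : |h - h'| ≤ δ * h := by
      have h9 : h - h' = -((h' / h - 1) * h) := by field_simp; ring
      rw [h9, abs_neg, abs_mul, abs_of_pos hh]
      exact mul_le_mul_of_nonneg_right hρ.le hh.le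
    have h9 : g / h' - g / h = (g / h) * ((h - h') / h') := by field_simp
    have h10 : 0 ≤ g / h := div_nonneg hg hh.le
    rw [h9, abs_mul, abs_of_nonneg h10, abs_div, abs_of_pos hh', mul_comm]
    apply mul_le_mul_of_nonneg_right _ h10
    rw [div_le_iff₀ hh']
    nlinarith
  have hgap : ∀ m : ℕ, 0 ≤ (P (m + 1) : ℝ) - P m := by
    intro m
    have : P m ≤ P (m + 1) := P_mono.monotone (Nat.le_succ m)
    have : (P m : ℝ) ≤ P (m + 1) := by exact_mod_cast this
    linarith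
  refine ⟨j, h1, h2, h3, fun i => ?_, fun l hl hl' => ?_, h6⟩
  · have h7 := hinv _ (hgap (n + j i))
    have h8 := h4 i
    have h9 := hv i
    have h10 : ((P (n + j i + 1) : ℝ) - P (n + j i)) / h ≤ B + ε / 4 := by
      linarith [(abs_le.1 h8).2]
    have h11 : 2 * δ * (((P (n + j i + 1) : ℝ) - P (n + j i)) / h) ≤ 2 * δ * (B + ε / 4) :=
      mul_le_mul_of_nonneg_left h10 (by positivity)
    have h12 : 2 * δ * (B + ε / 4) ≤ ε / 2 := by nlinarith
    have h13 := abs_sub_le (((P (n + j i + 1) : ℝ) - P (n + j i)) / h')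
      (((P (n + j i + 1) : ℝ) - P (n + j i)) / h) (v i)
    linarith
  · have h7 := hinv _ (hgap (n + l))
    have h8 := h5 l hl hl'
    have h9 := (abs_le.1 h7).2
    have h10 : 0 ≤ ((P (n + l + 1) : ℝ) - P (n + l)) / h := div_nonneg (hgap _) hh.le
    have h11 : 2 * δ * (((P (n + l + 1) : ℝ) - P (n + l)) / h) ≤
        1 * (((P (n + l + 1) : ℝ) - P (n + l)) / h) := mul_le_mul_of_nonneg_right (by linarith) h10
    linarith

/-- **the chain theorem** -/
theorem chainH (k : ℕ) (hk : 1 ≤ k) : ∃ (L K : ℕ) (c : ℝ), 0 < c ∧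
    ∀ H : ℝ → ℝ, Scale H → ∀ q a : ℕ, Squarefree q → a.Coprime q →
    ∀ (v : Fin (L + 1) → Fin k → ℝ) (ε : Fin (L + 1) → ℝ), (∀ i, 0 < ε i) → (∀ i b, ε i ≤ v i b) →
    (∀ i j : Fin (L + 1), i < j → 1280 * ∑ b, v j b ≤ ε i) →
    (∀ᶠ X : ℝ in atTop, 4 * (∑ b, v 0 b) * H X ≤ c * ff X) →
    ∀ᶠ X : ℝ in atTop, ∃ i, X ^ (4 / 5 : ℝ) ≤ ((Occ H q a K X (ε i) (v i)).ncard : ℝ) := by
  obtain ⟨L, K, c, hc, hmain⟩ := chainX k hk
  refine ⟨L, K, c, hc, fun H hH q a hq ha v ε hε hεv hch htop => ?_⟩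
  obtain ⟨τ, hτ, hτε⟩ : ∃ τ : ℝ, 0 < τ ∧ ∀ i, τ ≤ ε i := by
    obtain ⟨i0, hi0⟩ := Finite.exists_min ε
    exact ⟨ε i0, hε i0, hi0⟩
  have hv0 : ∀ i b, 0 ≤ v i b := fun i b => (hε i).le.trans (hεv i b)
  set B : ℝ := ∑ i, ∑ b, v i b with hB
  set S : ℝ := ∑ i, ε i with hS
  have hB0 : 0 ≤ B := sum_nonneg fun i _ => sum_nonneg fun b _ => hv0 i b
  have hvB : ∀ i b, v i b ≤ B := by
    intro i b
    have h1 : v i b ≤ ∑ b, v i b := single_le_sum (f := fun b => v i b) (fun b _ => hv0 i b) (mem_univ b)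
    have h2 : ∑ b, v i b ≤ B := single_le_sum (f := fun i => ∑ b, v i b)
      (fun i _ => sum_nonneg fun b _ => hv0 i b) (mem_univ i)
    exact h1.trans h2
  have hεS : ∀ i, ε i ≤ S := fun i => single_le_sum (f := fun i => ε i) (fun i _ => (hε i).le) (mem_univ i)
  have hS0 : 0 < S := (hε 0).trans_le (hεS 0)
  obtain ⟨δ, hδ⟩ : ∃ δ : ℝ, δ = min (1 / 2) (τ / (4 * (B + S))) := ⟨_, rfl⟩
  have hBS : 0 < 4 * (B + S) := by linarith
  have hδ0 : 0 < δ := by
    rw [hδ]
    exact lt_min (by norm_num) (div_pos hτ hBS)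
  have hδ2 : δ ≤ 1 / 2 := by rw [hδ]; exact min_le_left _ _
  have hδ3 : ∀ i, δ * (4 * (B + ε i)) ≤ ε i := by
    intro i
    have h1 : δ ≤ τ / (4 * (B + S)) := by rw [hδ]; exact min_le_right _ _
    rw [le_div_iff₀ hBS] at h1
    have h2 : δ * (4 * (B + ε i)) ≤ δ * (4 * (B + S)) := by
      apply mul_le_mul_of_nonneg_left _ hδ0.le
      linarith [hεS i]
    linarith [hτε i]
  filter_upwards [hmain τ hτ q a hq ha, hH.1, hH.2 δ hδ0, htop,
    Real.tendsto_log_atTop.eventually_gt_atTop 0] with X hX hH1 hH2 htopX hlog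
  obtain ⟨i, hi⟩ := hX (H X) hH1.1 v ε hτε hεv hch htopX
  refine ⟨i, hi.trans ?_⟩
  rw [Nat.cast_le]
  apply Set.ncard_le_ncard
  · rintro n ⟨hn1, hn2, hn3⟩
    exact ⟨hn1, hn2, hn3.renorm (hlog.trans_le hH1.1) (hH2 _ hn1.le hn2) hδ2
      (fun b => ⟨hv0 i b, hvB i b⟩) (hε i) (hδ3 i)⟩
  · exact (fin_le X).subset fun n hn => hn.2.1

/-- **all small vectors of gaps**, and all vectors of gaps up to a bounded error -/
theorem all (k : ℕ) (hk : 1 ≤ k) : ∃ (L K : ℕ) (c₀ : ℝ), 0 < c₀ ∧ ∀ H : ℝ → ℝ, Scale H →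
    ∀ q a : ℕ, Squarefree q → a.Coprime q →
    (∀ (v : Fin (L + 1) → Fin k → ℝ) (ε : Fin (L + 1) → ℝ), (∀ i, 0 < ε i) → (∀ i b, ε i ≤ v i b) →
      (∀ i j : Fin (L + 1), i < j → 1280 * ∑ b, v j b ≤ ε i) →
      (∀ᶠ X : ℝ in atTop, 4 * (∑ b, v 0 b) * H X ≤ c₀ * ff X) →
      ∀ᶠ X : ℝ in atTop, ∃ i, X ^ (4 / 5 : ℝ) ≤ ((Occ H q a K X (ε i) (v i)).ncard : ℝ)) ∧
    ∀ x : ℕ → ℝ, Tendsto x atTop atTop →
    (∃ c : ℝ, 0 < c ∧ ∀ v : Fin k → ℝ, (∀ i, 0 ≤ v i ∧ v i ≤ c) → ∀ ε : ℝ, 0 < ε →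
      ∃ᶠ s in atTop, (x s) ^ (4 / 5 : ℝ) ≤ ((Occ H q a K (x s) ε v).ncard : ℝ)) ∧
    ((∀ c : ℝ, 0 < c → ∀ᶠ X : ℝ in atTop, H X ≤ c * ff X) →
      ∃ C : ℝ, ∀ v : Fin k → ℝ, (∀ i, 0 ≤ v i) →
        ∃ᶠ s in atTop, (x s) ^ (4 / 5 : ℝ) ≤ ((Occ H q a K (x s) C v).ncard : ℝ)) := by
  obtain ⟨L, K, c, hc, hmain⟩ := chainH k hk
  have hkr : (1 : ℝ) ≤ k := by exact_mod_cast hk
  refine ⟨L, K, c, hc, fun H hH q a hq ha => ⟨hmain H hH q a hq ha, fun x hx => ⟨?_, fun hlit => ?_⟩⟩⟩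
  · by_contra hcon
    push Not at hcon
    -- bad vectors with positive entries
    have hbad : ∀ t : ℝ, 0 < t → ∃ (v : Fin k → ℝ) (ε : ℝ), 0 < ε ∧ (∀ i, ε ≤ v i ∧ v i ≤ t) ∧
        ∀ᶠ s in atTop, ((Occ H q a K (x s) ε v).ncard : ℝ) < (x s) ^ (4 / 5 : ℝ) := by
      intro t ht
      obtain ⟨v, hv, ε, hε, hev⟩ := hcon t ht
      refine ⟨fun i => max (v i) (min ε t / 2), min ε t / 2, ?_, ?_, ?_⟩
      · have := lt_min hε ht
        linarith
      · intro i
        refine ⟨le_max_right _ _, max_le (hv i).2 ?_⟩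
        have h1 := min_le_right ε t
        linarith
      · filter_upwards [hev] with s hs
        refine (Occ_mono ?_ ?_).trans_lt hs
        · intro i
          have h1 := lt_min hε ht
          have h2 := min_le_left ε t
          have h3 : |max (v i) (min ε t / 2) - v i| ≤ min ε t / 2 := by
            rw [abs_of_nonneg (by linarith [le_max_left (v i) (min ε t / 2)])]
            rcases le_total (v i) (min ε t / 2) with h4 | h4
            · rw [max_eq_right h4]
              linarith [(hv i).1]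
            · rw [max_eq_left h4]
              linarith
          linarith
        · have h1 := lt_min hε ht
          have h2 := min_le_left ε t
          linarith
    choose! V E hE0 hEV hEb using hbad
    set t : ℕ → ℝ := fun m => Nat.rec (c / (4 * (k + 1))) (fun _ u => E u / (1280 * (k + 1))) m with ht
    have ht0 : t 0 = c / (4 * (k + 1)) := rfl
    have hts : ∀ m, t (m + 1) = E (t m) / (1280 * (k + 1)) := fun m => rfl
    have htpos : ∀ m, 0 < t m := by
      intro m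
      induction m with
      | zero => rw [ht0]; positivity
      | succ m ih =>
        rw [hts]
        have := hE0 _ ih
        positivity
    have hEt : ∀ m, E (t m) ≤ t m := fun m => by
      have h1 := hEV (t m) (htpos m) ⟨0, hk⟩
      exact h1.1.trans h1.2
    have htanti : ∀ m, t (m + 1) ≤ t m := by
      intro m
      rw [hts, div_le_iff₀ (by positivity)]
      have h1 := hEt m
      have h2 := htpos m
      nlinarith
    have htanti' : Antitone t := antitone_nat_of_succ_le htanti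
    have hsumV : ∀ m, ∑ b, V (t m) b ≤ k * t m := by
      intro m
      calc ∑ b, V (t m) b ≤ ∑ _b : Fin k, t m := sum_le_sum fun b _ => (hEV (t m) (htpos m) b).2
        _ = k * t m := by rw [sum_const, card_univ, Fintype.card_fin, nsmul_eq_mul]
    have h := hmain H hH q a hq ha (fun i => V (t i)) (fun i => E (t i)) (fun i => hE0 _ (htpos i))
      (fun i b => (hEV _ (htpos i) b).1) (by
      intro i j hij
      have h1 : t j ≤ t ((i : ℕ) + 1) := htanti' hij
      have h2 := hsumV j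
      have h3 : (k : ℝ) * t j ≤ k * t ((i : ℕ) + 1) := mul_le_mul_of_nonneg_left h1 (by linarith)
      rw [hts] at h3
      have h4 : (k : ℝ) * (E (t i) / (1280 * (k + 1))) ≤ E (t i) / 1280 := by
        have h5 := hE0 _ (htpos i)
        rw [mul_div_assoc', div_le_div_iff₀ (by positivity) (by norm_num)]
        nlinarith
      linarith) (by
      filter_upwards [hH.1, Real.tendsto_log_atTop.eventually_gt_atTop 0] with X hX hlog
      have h1 : ∑ b, V (t 0) b ≤ k * t 0 := hsumV 0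
      have h2 : 4 * (∑ b, V (t 0) b) ≤ c := by
        rw [ht0] at h1
        have h3 : (k : ℝ) * (c / (4 * (k + 1))) ≤ c / 4 := by
          rw [mul_div_assoc', div_le_div_iff₀ (by positivity) (by norm_num)]
          nlinarith
        rw [ht0]
        linarith
      have h3 : 0 < H X := hlog.trans_le hX.1
      have h4 : 4 * (∑ b, V (t 0) b) * H X ≤ c * H X := mul_le_mul_of_nonneg_right h2 h3.le
      have h5 : c * H X ≤ c * ff X := mul_le_mul_of_nonneg_left hX.2 hc.le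
      exact h4.trans h5)
    have h1 : ∀ᶠ s in atTop, ∀ i : Fin (L + 1),
        ((Occ H q a K (x s) (E (t i)) (V (t i))).ncard : ℝ) < (x s) ^ (4 / 5 : ℝ) := by
      rw [eventually_all]
      intro i
      exact hEb _ (htpos i)
    obtain ⟨s, ⟨i, hs1⟩, hs2⟩ := ((hx.eventually h).and h1).exists
    exact absurd hs1 (not_le.2 (hs2 i))
  · by_contra hcon
    push Not at hcon
    have hbad : ∀ C : ℝ, ∃ v : Fin k → ℝ, 1 ≤ C → (∀ i, C / 4 ≤ v i) ∧
        ∀ᶠ s in atTop, ((Occ H q a K (x s) (C / 4) v).ncard : ℝ) < (x s) ^ (4 / 5 : ℝ) := by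
      intro C
      obtain ⟨v, hv, hev⟩ := hcon C
      refine ⟨fun i => v i + C / 4, fun hC => ⟨fun i => by linarith [hv i], ?_⟩⟩
      filter_upwards [hev] with s hs
      refine (Occ_mono ?_ ?_).trans_lt hs
      · intro i
        have h1 : |v i + C / 4 - v i| = C / 4 := by
          rw [add_sub_cancel_left, abs_of_nonneg (by linarith)]
        rw [h1]
        linarith
      · linarith
    choose V hV using hbad
    set t : ℕ → ℝ := fun m => Nat.rec 1 (fun _ u => 5120 * (∑ b, V u b) + u) m with ht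
    have ht0 : t 0 = 1 := rfl
    have hts : ∀ m, t (m + 1) = 5120 * (∑ b, V (t m) b) + t m := fun m => rfl
    have hsum0 : ∀ u, 1 ≤ u → 0 ≤ ∑ b, V u b := fun u hu => sum_nonneg fun b _ => by
      have := (hV u hu).1 b
      linarith
    have ht1 : ∀ m, 1 ≤ t m := by
      intro m
      induction m with
      | zero => rw [ht0]
      | succ m ih =>
        rw [hts]
        have := hsum0 _ ih
        linarith
    have htmono : Monotone t := monotone_nat_of_le_succ fun m => by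
      rw [hts]
      have := hsum0 _ (ht1 m)
      linarith
    have h := hmain H hH q a hq ha (fun i => V (t (L - i))) (fun i => t (L - i) / 4)
      (fun i => by have := ht1 (L - i); linarith) (fun i b => (hV _ (ht1 (L - i))).1 b) (by
      intro i j hij
      have hij' : (i : ℕ) < j := hij
      have h0 := j.2
      have h00 : (L - (j : ℕ)) + 1 ≤ L - (i : ℕ) := by omega
      have h1 : t ((L - (j : ℕ)) + 1) ≤ t (L - (i : ℕ)) := htmono h00
      rw [hts] at h1
      have h2 := ht1 (L - j)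
      linarith) (by
      set s0 : ℝ := ∑ b, V (t (L - ((0 : Fin (L + 1)) : ℕ))) b with hs0
      have hs0' : 0 ≤ s0 := hsum0 _ (ht1 _)
      filter_upwards [hlit (c / (4 * s0 + 1)) (by positivity), hH.1,
        Real.tendsto_log_atTop.eventually_gt_atTop 0] with X hX hX1 hlog
      have h3 : 0 < H X := hlog.trans_le hX1.1
      have h4 : 4 * s0 * H X ≤ (4 * s0 + 1) * H X := mul_le_mul_of_nonneg_right (by linarith) h3.le
      have h5 : (4 * s0 + 1) * H X ≤ (4 * s0 + 1) * (c / (4 * s0 + 1) * ff X) :=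
        mul_le_mul_of_nonneg_left hX (by positivity)
      have h6 : (4 * s0 + 1) * (c / (4 * s0 + 1) * ff X) = c * ff X := by field_simp
      linarith)
    have h1 : ∀ᶠ s in atTop, ∀ i : Fin (L + 1),
        ((Occ H q a K (x s) (t (L - i) / 4) (V (t (L - i)))).ncard : ℝ) < (x s) ^ (4 / 5 : ℝ) := by
      rw [eventually_all]
      intro i
      exact (hV _ (ht1 _)).2
    obtain ⟨s, ⟨i, hs1⟩, hs2⟩ := ((hx.eventually h).and h1).exists
    exact absurd hs1 (not_le.2 (hs2 i))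

end Pool.Agent.N790.LC
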