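import Mathlib
import Pool.Agent.N790.LC.Main

set_option autoImplicit false

/-! Two scales: the record size of the gaps, and the logarithm. -/

open Finset Filter Topology

namespace Pool.Agent.N790.LC

open Pool.Agent.H256R2.SC (ff)
open Pool.Agent.H312R2.RG.C3 (ff_slow)

theorem scale_ff : Scale ff := by
  refine ⟨?_, fun δ hδ => ?_⟩
  · filter_upwards [Pool.Agent.H672R3.InfRec.scale_ev 1 one_pos] with x hx
    exact ⟨by linarith, le_rfl⟩
  · have hδ' : 0 < min (1 / 2) (δ / 2) := lt_min (by norm_num) (by positivity)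
    filter_upwards [ff_slow (min (1 / 2) (δ / 2)) hδ'] with x hx
    intro y h1 h2
    have h3 := abs_lt.1 (hx y h1 h2)
    have h4 := min_le_left (1 / 2 : ℝ) (δ / 2)
    have h5 := min_le_right (1 / 2 : ℝ) (δ / 2)
    have h6 : 1 / 2 < ff x / ff y := by linarith [h3.1]
    have h7 : ff y / ff x - 1 = (1 - ff x / ff y) / (ff x / ff y) := by
      have h8 : ff x / ff y ≠ 0 := by linarith
      have h9 : ff x ≠ 0 := fun h => h8 (by rw [h, zero_div])
      have h10 : ff y ≠ 0 := fun h => h8 (by rw [h, div_zero])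
      field_simp
    have h8 : |1 - ff x / ff y| < min (1 / 2) (δ / 2) := by
      rw [abs_lt]
      constructor <;> linarith [h3.1, h3.2]
    rw [h7, abs_div, abs_of_pos (show (0 : ℝ) < ff x / ff y by linarith),
      div_lt_iff₀ (by linarith : (0 : ℝ) < ff x / ff y)]
    have h9 : δ * (1 / 2) ≤ δ * (ff x / ff y) := mul_le_mul_of_nonneg_left h6.le hδ.le
    linarith

theorem scale_log : Scale Real.log := by
  refine ⟨?_, fun δ hδ => ?_⟩
  · filter_upwards [Pool.Agent.H672R3.InfRec.scale_ev 1 one_pos] with x hx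
    exact ⟨le_rfl, by linarith⟩
  · filter_upwards [Real.tendsto_log_atTop.eventually_gt_atTop (Real.log 4 / δ),
      Real.tendsto_log_atTop.eventually_gt_atTop 0, eventually_gt_atTop (0 : ℝ)] with x hx hlog hx0
    intro y h1 h2
    have h3 : Real.log x ≤ Real.log y := Real.log_le_log hx0 h1
    have h4 : Real.log y ≤ Real.log 4 + Real.log x := by
      rw [← Real.log_mul (by norm_num) hx0.ne']
      exact Real.log_le_log (hx0.trans_le h1) h2
    rw [div_lt_iff₀ hδ] at hx
    have h5 : Real.log y / Real.log x - 1 = (Real.log y - Real.log x) / Real.log x := by field_simp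
    rw [h5, abs_of_nonneg (div_nonneg (by linarith) hlog.le), div_lt_iff₀ hlog]
    linarith

theorem log_small (c : ℝ) (hc : 0 < c) : ∀ᶠ x : ℝ in atTop, Real.log x ≤ c * ff x :=
  Pool.Agent.H672R3.InfRec.scale_ev c hc

end Pool.Agent.N790.LC
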